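import Mathlib

set_option autoImplicit false

/-!
# MP_6800d9_co, Q1 (Moser 1966): rectangles of total area 3 cover the unit square

Every family (finite or infinite) of rectangles with fixed orientation, all of whose sides are at
most `1` and whose total area is at least `3`, covers the unit square by translations.

The rectangles are put into rows by decreasing height. If `h₁ ≥ h₂ ≥ ...` are the least heights of
the complete rows, then a row has area at most (largest height) + (least height). Infinite families
of total area exactly `3` need an additional limit argument.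
-/

namespace Pool.Agent.Results.MP_6800d9_co.RectanglesCover

open Finset

variable {ι : Type*}

/-- Translates of the rectangles of `s` cover `[0,1] × [0,H]`. -/
def Covers (a b : ι → ℝ) (s : Finset ι) (H : ℝ) : Prop :=
  ∃ v : ι → ℝ × ℝ, ∀ x y : ℝ, 0 ≤ x → x ≤ 1 → 0 ≤ y → y ≤ H →
    ∃ i ∈ s, (v i).1 ≤ x ∧ x ≤ (v i).1 + a i ∧ (v i).2 ≤ y ∧ y ≤ (v i).2 + b i

/-- intervals placed side by side -/
theorem line_cover [DecidableEq ι] (a : ι → ℝ) (s : Finset ι) :
    ∃ t : ι → ℝ, ∀ x : ℝ, 0 ≤ x → x ≤ ∑ i ∈ s, a i → s.Nonempty →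
      ∃ i ∈ s, t i ≤ x ∧ x ≤ t i + a i := by
  induction s using Finset.induction_on with
  | empty => exact ⟨fun _ => 0, fun x _ _ h => absurd h Finset.not_nonempty_empty⟩
  | insert i s hi ih =>
    obtain ⟨t, ht⟩ := ih
    refine ⟨Function.update t i (∑ j ∈ s, a j), ?_⟩
    intro x hx hxs _
    rw [Finset.sum_insert hi] at hxs
    by_cases hcase : x ≤ ∑ j ∈ s, a j ∧ s.Nonempty
    · obtain ⟨j, hj, h1, h2⟩ := ht x hx hcase.1 hcase.2
      have hne : j ≠ i := fun h => hi (h ▸ hj)
      exact ⟨j, Finset.mem_insert_of_mem hj, by simp [hne, h1], by simp [hne, h2]⟩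
    · refine ⟨i, Finset.mem_insert_self _ _, ?_, ?_⟩
      · rw [Function.update_self]
        rw [not_and_or] at hcase
        rcases hcase with h | h
        · exact (not_le.mp h).le
        · rw [Finset.not_nonempty_iff_eq_empty] at h
          rw [h]
          simpa using hx
      · rw [Function.update_self]
        linarith

/-- a row of tallest rectangles -/
theorem exists_row [DecidableEq ι] (a b : ι → ℝ) (s : Finset ι) (hs : 1 ≤ ∑ i ∈ s, a i) :
    ∃ r ⊆ s, ∃ l ∈ r, 1 ≤ ∑ i ∈ r, a i ∧ ∑ i ∈ r.erase l, a i < 1 ∧ (∀ i ∈ r, b l ≤ b i) ∧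
      ∀ i ∈ s \ r, b i ≤ b l := by
  classical
  let P := s.powerset.filter fun r => 1 ≤ ∑ i ∈ r, a i ∧ ∀ i ∈ r, ∀ j ∈ s \ r, b j ≤ b i
  have hP : P.Nonempty := by
    refine ⟨s, ?_⟩
    simp only [P, mem_filter, mem_powerset]
    refine ⟨subset_rfl, hs, ?_⟩
    intro i _ j hj
    simp at hj
  obtain ⟨r, hrP, hmin⟩ := P.exists_min_image (fun r => r.card) hP
  simp only [P, mem_filter, mem_powerset] at hrP
  obtain ⟨hrs, hw, hup⟩ := hrP
  have hne : r.Nonempty := by
    rw [Finset.nonempty_iff_ne_empty]
    rintro rfl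
    simp at hw
    linarith
  obtain ⟨l, hl, hlmin⟩ := r.exists_min_image b hne
  refine ⟨r, hrs, l, hl, hw, ?_, hlmin, fun j hj => hup l hl j hj⟩
  by_contra hcon
  push Not at hcon
  have hmem : r.erase l ∈ P := by
    simp only [P, mem_filter, mem_powerset]
    refine ⟨(Finset.erase_subset _ _).trans hrs, hcon, ?_⟩
    intro i hi j hj
    have hi' : i ∈ r := Finset.mem_of_mem_erase hi
    by_cases hjl : j = l
    · subst hjl
      exact hlmin i hi'
    · refine hup i hi' j ?_
      rw [mem_sdiff] at hj ⊢
      exact ⟨hj.1, fun h => hj.2 (Finset.mem_erase.mpr ⟨hjl, h⟩)⟩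
  have h1 := hmin _ hmem
  have h2 := Finset.card_erase_lt_of_mem hl
  omega

/-- The main inequality: if all sides are at most `1` and subfamilies of total width less than `1`
have area at most `μ`, then a family which does not cover `[0,1] × [0,H]` has area at most
`μ + 2 H`. -/
theorem main_bound [DecidableEq ι] (a b : ι → ℝ) (ha : ∀ i, 0 < a i ∧ a i ≤ 1)
    (hb : ∀ i, 0 < b i ∧ b i ≤ 1) : ∀ (n : ℕ) (s : Finset ι) (H μ : ℝ), s.card ≤ n → 0 ≤ H →
    (∀ r ⊆ s, ∑ i ∈ r, a i < 1 → ∑ i ∈ r, a i * b i ≤ μ) → ¬ Covers a b s H →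
    ∑ i ∈ s, a i * b i ≤ μ + 2 * H := by
  intro n
  induction n with
  | zero =>
    intro s H μ hn hH hμ _
    have := hμ s subset_rfl (by
      rw [Finset.card_eq_zero.mp (Nat.le_zero.mp hn)]; simp)
    linarith
  | succ n ih =>
    intro s H μ hn hH hμ hnc
    by_cases hs : ∑ i ∈ s, a i < 1
    · have := hμ s subset_rfl hs
      linarith
    · push Not at hs
      obtain ⟨r, hrs, l, hl, hw, hw', hmin, hmax⟩ := exists_row a b s hs
      obtain ⟨t, ht⟩ := line_cover a r
      -- the area of the row
      have harea : ∑ i ∈ r, a i * b i ≤ μ + b l := by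
        rw [← Finset.add_sum_erase r _ hl]
        have h1 := hμ (r.erase l) ((Finset.erase_subset _ _).trans hrs) hw'
        have h2 : a l * b l ≤ b l := mul_le_of_le_one_left (hb l).1.le (ha l).2
        linarith
      have hrow : ∀ x y : ℝ, 0 ≤ x → x ≤ 1 → 0 ≤ y → y ≤ b l →
          ∃ i ∈ r, t i ≤ x ∧ x ≤ t i + a i ∧ 0 ≤ y ∧ y ≤ 0 + b i := by
        intro x y hx hx1 hy hyl
        obtain ⟨i, hi, h1, h2⟩ := ht x hx (hx1.trans hw) ⟨l, hl⟩
        exact ⟨i, hi, h1, h2, hy, by linarith [hmin i hi]⟩
      have hbl : b l < H := by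
        by_contra hcon
        push Not at hcon
        apply hnc
        refine ⟨fun i => (t i, 0), ?_⟩
        intro x y hx hx1 hy hyH
        obtain ⟨i, hi, h⟩ := hrow x y hx hx1 hy (hyH.trans hcon)
        exact ⟨i, hrs hi, h⟩
      -- the remaining rectangles
      have hcard : (s \ r).card ≤ n := by
        have h1 : 0 < r.card := Finset.card_pos.mpr ⟨l, hl⟩
        have h2 := Finset.card_sdiff_add_card_eq_card hrs
        omega
      have hrest := ih (s \ r) (H - b l) (b l) hcard (by linarith) ?_ ?_
      · rw [← Finset.sum_sdiff hrs]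
        linarith
      · intro r' hr' hw''
        calc ∑ i ∈ r', a i * b i ≤ ∑ i ∈ r', a i * b l :=
              Finset.sum_le_sum fun i hi =>
                mul_le_mul_of_nonneg_left (hmax i (hr' hi)) (ha i).1.le
          _ = (∑ i ∈ r', a i) * b l := by rw [Finset.sum_mul]
          _ ≤ b l := mul_le_of_le_one_left (hb l).1.le hw''.le
      · rintro ⟨v, hv⟩
        apply hnc
        refine ⟨fun i => if i ∈ r then (t i, 0) else ((v i).1, (v i).2 + b l), ?_⟩
        intro x y hx hx1 hy hyH
        rcases le_total y (b l) with hyl | hyl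
        · obtain ⟨i, hi, h⟩ := hrow x y hx hx1 hy hyl
          refine ⟨i, hrs hi, ?_⟩
          simp only [hi, if_true]
          exact h
        · obtain ⟨i, hi, h1, h2, h3, h4⟩ := hv x (y - b l) hx hx1 (by linarith) (by linarith)
          rw [mem_sdiff] at hi
          refine ⟨i, hi.1, ?_⟩
          simp only [hi.2, if_false]
          exact ⟨h1, h2, by linarith, by linarith⟩

/-- Intervals of total length at least `1` (finitely or infinitely many) cover `[0,1]`. -/
theorem interval_cover [Countable ι] (a : ι → ℝ) (ha : ∀ i, 0 < a i)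
    (hsum : Summable a) (h1 : 1 ≤ ∑' i, a i) :
    ∃ t : ι → ℝ, ∀ x : ℝ, 0 ≤ x → x ≤ 1 → ∃ i, t i ≤ x ∧ x ≤ t i + a i := by
  classical
  have := Encodable.ofCountable ι
  have hne : Nonempty ι := by
    by_contra hcon
    rw [not_nonempty_iff] at hcon
    rw [tsum_empty] at h1
    linarith
  obtain ⟨i₀⟩ := hne
  let g : ℕ → ℝ := fun n => ((Encodable.decode₂ ι n).elim 0 fun i => if i = i₀ then 0 else a i)
  have hg0 : ∀ n, 0 ≤ g n := by
    intro n
    simp only [g]
    rcases Encodable.decode₂ ι n with _ | i
    · simp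
    · simp only [Option.elim_some]
      split_ifs
      · exact le_rfl
      · exact (ha i).le
  have hgi : ∀ i, g (Encodable.encode i) = if i = i₀ then 0 else a i := by
    intro i
    simp only [g, Encodable.encodek₂, Option.elim_some]
  let S : ℕ → ℝ := fun n => ∑ k ∈ Finset.range n, g k
  refine ⟨fun i => if i = i₀ then 1 - a i₀ else S (Encodable.encode i), ?_⟩
  intro x hx hx1
  by_cases hx2 : 1 - a i₀ ≤ x
  · exact ⟨i₀, by simp [hx2], by simp [hx1]⟩
  · push Not at hx2
    -- some partial sum exceeds `x`
    have hex : ∃ n, x < S n := by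
      by_contra hcon
      push Not at hcon
      -- sums over finite sets without `i₀` are at most `x`
      have hfin : ∀ F : Finset ι, ∑ i ∈ F, (if i = i₀ then 0 else a i) ≤ x := by
        intro F
        obtain ⟨N, hN⟩ : ∃ N, ∀ i ∈ F, Encodable.encode i < N :=
          ⟨(F.image Encodable.encode).sup id + 1, fun i hi => Nat.lt_succ_of_le
            (Finset.le_sup (f := id) (Finset.mem_image_of_mem _ hi))⟩
        calc ∑ i ∈ F, (if i = i₀ then 0 else a i) = ∑ i ∈ F, g (Encodable.encode i) :=
              Finset.sum_congr rfl fun i _ => (hgi i).symm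
          _ = ∑ k ∈ F.image Encodable.encode, g k := by
              rw [Finset.sum_image]
              intro i _ j _ h
              exact Encodable.encode_injective h
          _ ≤ ∑ k ∈ Finset.range N, g k := by
              refine Finset.sum_le_sum_of_subset_of_nonneg ?_ fun k _ _ => hg0 k
              intro k hk
              obtain ⟨i, hi, rfl⟩ := Finset.mem_image.mp hk
              exact Finset.mem_range.mpr (hN i hi)
          _ ≤ x := hcon N
      have h2 : ∑' i, a i ≤ a i₀ + x := by
        refine hsum.tsum_le_of_sum_le ?_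
        intro F
        have h3 := hfin F
        have h4 : ∑ i ∈ F, a i ≤ a i₀ + ∑ i ∈ F, (if i = i₀ then 0 else a i) := by
          have h5 : ∑ i ∈ F, (if i = i₀ then a i₀ else 0) ≤ a i₀ := by
            rw [Finset.sum_ite_eq']
            split_ifs
            · exact le_rfl
            · exact (ha i₀).le
          have h6 : ∑ i ∈ F, a i = ∑ i ∈ F, (if i = i₀ then a i₀ else 0) +
              ∑ i ∈ F, (if i = i₀ then 0 else a i) := by
            rw [← Finset.sum_add_distrib]
            refine Finset.sum_congr rfl fun i _ => ?_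
            split_ifs with h
            · rw [h, add_zero]
            · rw [zero_add]
          linarith
        linarith
      linarith
    obtain ⟨m, hm⟩ : ∃ m, Nat.find hex = m + 1 := by
      refine Nat.exists_eq_succ_of_ne_zero ?_
      intro h0
      have := Nat.find_spec hex
      rw [h0] at this
      simp [S] at this
      linarith
    have hlt : x < S (m + 1) := hm ▸ Nat.find_spec hex
    have hge : S m ≤ x := not_lt.mp (Nat.find_min hex (by omega))
    have hS : S (m + 1) = S m + g m := Finset.sum_range_succ _ _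
    have hgm : 0 < g m := by linarith
    rcases hd : Encodable.decode₂ ι m with _ | i
    · simp [g, hd] at hgm
    · have hi : Encodable.encode i = m := Encodable.mem_decode₂.mp hd
      have hii : i ≠ i₀ := by
        rintro rfl
        simp [g, hd] at hgm
      have hgi' : g m = a i := by
        rw [← hi, hgi, if_neg hii]
      refine ⟨i, ?_, ?_⟩
      · simp only [hii, if_false, hi]
        exact hge
      · simp only [hii, if_false, hi]
        linarith

/-- **Main result.** Let `(a i, b i)` be the widths and heights of a family of rectangles, all at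
most `1`, of total area at least `3`. Then translates of the rectangles cover the unit square. -/
theorem result {ι : Type*} (a b : ι → ℝ) (ha : ∀ i, 0 < a i ∧ a i ≤ 1)
    (hb : ∀ i, 0 < b i ∧ b i ≤ 1) (harea : 3 ≤ ∑' i, ENNReal.ofReal (a i * b i)) :
    ∃ v : ι → ℝ × ℝ, Set.Icc (0 : ℝ) 1 ×ˢ Set.Icc (0 : ℝ) 1 ⊆
      ⋃ i, (fun p => v i + p) '' (Set.Icc 0 (a i) ×ˢ Set.Icc 0 (b i)) := by
  classical
  have hab : ∀ i, 0 < a i * b i := fun i => mul_pos (ha i).1 (hb i).1
  -- reformulation
  suffices hsuff : ∃ v : ι → ℝ × ℝ, ∀ x y : ℝ, 0 ≤ x → x ≤ 1 → 0 ≤ y → y ≤ 1 →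
      ∃ i, (v i).1 ≤ x ∧ x ≤ (v i).1 + a i ∧ (v i).2 ≤ y ∧ y ≤ (v i).2 + b i by
    obtain ⟨v, hv⟩ := hsuff
    refine ⟨v, ?_⟩
    rintro ⟨x, y⟩ ⟨⟨hx0, hx1⟩, ⟨hy0, hy1⟩⟩
    obtain ⟨i, h1, h2, h3, h4⟩ := hv x y hx0 hx1 hy0 hy1
    rw [Set.mem_iUnion]
    refine ⟨i, (x - (v i).1, y - (v i).2), ⟨⟨by simp only; linarith, by simp only; linarith⟩,
      ⟨by simp only; linarith, by simp only; linarith⟩⟩, ?_⟩
    ext <;> simp
  have hfinite : ∀ s : Finset ι, Covers a b s 1 → ∃ v : ι → ℝ × ℝ, ∀ x y : ℝ, 0 ≤ x → x ≤ 1 →
      0 ≤ y → y ≤ 1 → ∃ i, (v i).1 ≤ x ∧ x ≤ (v i).1 + a i ∧ (v i).2 ≤ y ∧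
        y ≤ (v i).2 + b i := by
    rintro s ⟨v, hv⟩
    refine ⟨v, fun x y h1 h2 h3 h4 => ?_⟩
    obtain ⟨i, -, h⟩ := hv x y h1 h2 h3 h4
    exact ⟨i, h⟩
  by_contra hno
  have hnc : ∀ s : Finset ι, ¬ Covers a b s 1 := fun s hs => hno (hfinite s hs)
  -- all finite subfamilies have area at most 3
  have hle3 : ∀ s : Finset ι, ∑ i ∈ s, a i * b i ≤ 3 := by
    intro s
    have := main_bound a b ha hb s.card s 1 1 le_rfl zero_le_one ?_ (hnc s)
    · linarith
    · intro r _ hr
      calc ∑ i ∈ r, a i * b i ≤ ∑ i ∈ r, a i :=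
            Finset.sum_le_sum fun i _ => mul_le_of_le_one_right (ha i).1.le (hb i).2
        _ ≤ 1 := hr.le
  have hsumm : Summable fun i => a i * b i :=
    summable_of_sum_le (fun i => (hab i).le) hle3
  have hcount : Countable ι := by
    have := hsumm.countable_support
    have hu : Function.support (fun i => a i * b i) = Set.univ := by
      ext i
      simp [(ha i).1.ne', (hb i).1.ne']
    rw [hu] at this
    exact Set.countable_univ_iff.mp this
  have hthree : 3 ≤ ∑' i, a i * b i := by
    rw [← ENNReal.ofReal_tsum_of_nonneg (fun i => (hab i).le) hsumm] at harea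
    rw [show (3 : ENNReal) = ENNReal.ofReal 3 by simp] at harea
    exact (ENNReal.ofReal_le_ofReal_iff (tsum_nonneg fun i => (hab i).le)).mp harea
  -- the rectangles of height greater than 1/2
  let c : ι → ℝ := fun i => if 1 / 2 < b i then a i else 0
  have hc0 : ∀ i, 0 ≤ c i := by
    intro i
    simp only [c]
    split_ifs
    · exact (ha i).1.le
    · exact le_rfl
  have hcs : Summable c := by
    refine Summable.of_nonneg_of_le hc0 ?_ (hsumm.mul_left 2)
    intro i
    simp only [c]
    split_ifs with h
    · have := mul_lt_mul_of_pos_left h (ha i).1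
      linarith
    · have := hab i
      positivity
  -- the rectangles of height 1
  let d : ι → ℝ := fun i => if b i = 1 then a i else 0
  have hd0 : ∀ i, 0 ≤ d i := by
    intro i
    simp only [d]
    split_ifs
    · exact (ha i).1.le
    · exact le_rfl
  have hdc : ∀ i, d i ≤ c i := by
    intro i
    simp only [c, d]
    split_ifs with h1 h2 h2
    · exact le_rfl
    · exact absurd (by rw [h1]; norm_num) h2
    · exact (ha i).1.le
    · exact le_rfl
  have hds : Summable d := Summable.of_nonneg_of_le hd0 hdc hcs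
  by_cases hW : 1 ≤ ∑' i, d i
  · -- rectangles of full height cover
    apply hno
    let J := {i : ι // b i = 1}
    have e1 : ∑' i, d i = ∑' j : J, a j := by
      have : d = Set.indicator {i | b i = 1} a := by
        ext i
        simp [d, Set.indicator]
      rw [this, ← _root_.tsum_subtype]
      rfl
    have e2 : Summable fun j : J => a j := by
      have h := hds.subtype {i | b i = 1}
      refine h.congr ?_
      intro j
      have : b j.1 = 1 := j.2
      simp [d, this]
    rw [e1] at hW
    obtain ⟨t, ht⟩ := interval_cover (ι := J) (fun j => a j) (fun j => (ha j).1) e2 hW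
    refine ⟨fun i => if h : b i = 1 then (t ⟨i, h⟩, 0) else 0, ?_⟩
    intro x y hx0 hx1 hy0 hy1
    obtain ⟨⟨i, hi⟩, h1, h2⟩ := ht x hx0 hx1
    refine ⟨i, ?_⟩
    simp only [hi, dif_pos]
    exact ⟨h1, h2, hy0, by linarith⟩
  · push Not at hW
    -- a finite set carrying almost all the width of the high rectangles
    set W := ∑' i, d i with hWdef
    obtain ⟨F, hF⟩ : ∃ F : Finset ι, ∀ r : Finset ι, Disjoint r F → ∑ i ∈ r, c i < (1 - W) / 2 := by
      have hpos : (0 : ℝ) < (1 - W) / 2 := by linarith
      have h := hcs.vanishing (Iio_mem_nhds hpos)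
      obtain ⟨F, hF⟩ := h
      exact ⟨F, fun r hr => hF r hr⟩
    obtain ⟨η, hη0, hη1, hηF⟩ : ∃ η : ℝ, 0 < η ∧ η ≤ 1 / 2 ∧ ∀ i ∈ F, 1 - η < b i → b i = 1 := by
      clear_value W
      clear hF
      induction F using Finset.induction_on with
      | empty => exact ⟨1 / 2, by norm_num, le_rfl, by simp⟩
      | insert i F _ ih =>
        obtain ⟨η, h0, h1, h2⟩ := ih
        by_cases hbi : b i = 1
        · refine ⟨η, h0, h1, ?_⟩
          intro j hj hj2
          rcases Finset.mem_insert.mp hj with rfl | hj
          · exact hbi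
          · exact h2 j hj hj2
        · have hlt : b i < 1 := lt_of_le_of_ne (hb i).2 hbi
          refine ⟨min η (1 - b i), lt_min h0 (by linarith), (min_le_left _ _).trans h1, ?_⟩
          intro j hj hj2
          rcases Finset.mem_insert.mp hj with rfl | hj
          · have := min_le_right η (1 - b j)
            linarith
          · have := min_le_left η (1 - b i)
            exact h2 j hj (by linarith)
    -- subfamilies of width less than one have area at most `1 - γ`
    have hγ : ∀ r : Finset ι, ∑ i ∈ r, a i < 1 →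
        ∑ i ∈ r, a i * b i ≤ 1 - η * ((1 - W) / 2) := by
      intro r hr
      have h1 : ∑ i ∈ r, a i * b i ≤
          (1 - η) * ∑ i ∈ r, a i + η * ∑ i ∈ r, (if 1 - η < b i then a i else 0) := by
        rw [Finset.mul_sum, Finset.mul_sum, ← Finset.sum_add_distrib]
        refine Finset.sum_le_sum fun i _ => ?_
        split_ifs with h
        · have := mul_le_mul_of_nonneg_left (hb i).2 (ha i).1.le
          linarith
        · push Not at h
          have := mul_le_mul_of_nonneg_left h (ha i).1.le
          linarith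
      have h2 : ∑ i ∈ r, (if 1 - η < b i then a i else 0) ≤ W + (1 - W) / 2 := by
        have e : ∑ i ∈ r, (if 1 - η < b i then a i else 0) ≤
            ∑ i ∈ r ∩ F, d i + ∑ i ∈ r \ F, c i := by
          rw [← Finset.sum_inter_add_sum_sdiff r F]
          refine add_le_add (Finset.sum_le_sum fun i hi => ?_) (Finset.sum_le_sum fun i hi => ?_)
          · have hiF := (Finset.mem_inter.mp hi).2
            simp only [d]
            split_ifs with g1 g2 g2
            · exact le_rfl
            · exact absurd (hηF i hiF g1) g2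
            · exact (ha i).1.le
            · exact le_rfl
          · simp only [c]
            split_ifs with g1 g2 g2
            · exact le_rfl
            · exact absurd (by linarith) g2
            · exact (ha i).1.le
            · exact le_rfl
        have e1 : ∑ i ∈ r ∩ F, d i ≤ W := hds.sum_le_tsum _ fun i _ => hd0 i
        have e2 := (hF (r \ F) Finset.sdiff_disjoint).le
        linarith
      have h3 : (1 - η) * ∑ i ∈ r, a i ≤ (1 - η) * 1 :=
        mul_le_mul_of_nonneg_left hr.le (by linarith)
      have h4 := mul_le_mul_of_nonneg_left h2 hη0.le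
      have : η * (W + (1 - W) / 2) = η - η * ((1 - W) / 2) := by ring
      linarith
    have hpos : 0 < η * ((1 - W) / 2) := mul_pos hη0 (by linarith)
    have hle : ∑' i, a i * b i ≤ 3 - η * ((1 - W) / 2) := by
      refine hsumm.tsum_le_of_sum_le ?_
      intro s
      have := main_bound a b ha hb s.card s 1 (1 - η * ((1 - W) / 2)) le_rfl zero_le_one
        (fun r _ hr => hγ r hr) (hnc s)
      linarith
    linarith

end Pool.Agent.Results.MP_6800d9_co.RectanglesCover
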